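import Pool.Agent.MWT.Stmts

/-!
# Row CVE of squad MWT (MP_23468a_al): local letters do not cover thin letters
-/

set_option autoImplicit false

namespace Pool.Agent.MWT.H15

open Pool.Agent.Helper14_MV Pool.Agent.Helper2_MV Pool.Agent.MVD Pool.Agent.MWT

theorem own3 {f : ℕ} (hf : f = 0 ∨ f = 3 ∨ f = 6) : own f (3 % 7) := by
  rcases hf with rfl | rfl | rfl <;> exact ⟨by decide, by decide⟩

/-- row CVE -/
theorem cve : CveStmt := by
  intro m R E B t φ p q s f hm hT hE hn hB hf
  obtain ⟨z1, z2, hz⟩ := List.append_of_mem hf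
  have h1 : B 0 = (p ++ z1) ++ f :: ((z2 ++ z1) ++ f :: (z2 ++ q)) := by
    rw [hB, hz]
    simp
  have h2 := hT.ow f hE _ _ _ h1 3 (by omega) (own3 (hT.th f hE))
  have h3 : 3 * 3 + 1 ∈ φ s := by
    rw [hz]
    rw [List.mem_append] at h2
    rcases h2 with h | h
    · exact List.mem_append_right _ (List.mem_cons_of_mem _ h)
    · exact List.mem_append_left _ h
  have h4 : (φ s).filter (fun a => decide (a % 3 = 1)) = [] := List.eq_nil_of_length_eq_zero hn
  have h5 : 3 * 3 + 1 ∈ (φ s).filter (fun a => decide (a % 3 = 1)) :=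
    List.mem_filter.2 ⟨h3, by decide⟩
  rw [h4] at h5
  simp at h5

end Pool.Agent.MWT.H15
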